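import Pool.Agent.Run7.h847.MP57.Min

/-!
# MP_5766af_al, S01535, piece D10 (helper847): division subrings
-/

noncomputable section

namespace Pool.Agent.Run7.h847.MP57

open Finset Pool.Agent.Run7.h378

variable {K : Type} [Field K] [CharZero K] {D : Type} [DivisionRing D]

/-- an element of `D_l u_{l+1}` is not in `F` -/
lemma not_Fs_of_odd {C : Core K} {A : Alg C D} (hB : Base A) (l : ℕ) {e : D} (he : e ∈ A.Dl l)
    (hne : e ≠ 0) : e * A.u (l + 1) ∉ A.Fs := by
  rintro ⟨f, -, hf⟩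
  obtain ⟨n, hn, hw⟩ := hB.val_u l e he hne
  rw [← hf, A.w_ι] at hw
  cases hv : C.v f with
  | top =>
    rw [hv, WithTop.map_top] at hw
    exact WithTop.top_ne_coe hw
  | coe m =>
    rw [hv, WithTop.map_coe, WithTop.coe_inj] at hw
    have h2 : (2 : ℚ) ^ (l + 1) ≠ 0 := by positivity
    rw [eq_div_iff h2] at hw
    have h3 : m * 2 ^ (l + 1) = n := by exact_mod_cast hw
    rw [← h3, pow_succ] at hn
    have : Even (m * (2 ^ l * 2)) := by
      rw [← mul_assoc]; exact even_two.mul_left _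
    exact (Int.not_even_iff_odd.mpr hn) this

/-- first step of D10: central elements of `R` -/
lemma exists_central {T : Data K} {A : Alg T.toCore D} (hB : Base A) (hE : BaseE A)
    (hNA : NoAlg A) (haw : S_aw) (R : Subfield D) (l : ℕ) {ω : D} (hω : ω ∈ A.El l)
    (hωR : ω ∈ R) (hωF : ω ∉ A.Fs)
    (h2 : ∀ x ∈ A.Dl l, (∀ s ∈ R, s ∈ A.Dl l → s * x = x * s) →
      ∃ y, T.g l y = y ∧ x = A.ι y) :
    ∃ z ∈ T.M l, T.g l z = z ∧ z ∉ fix T.g ∧ A.ι z ∈ R := by
  have hωD : ω ∈ A.Dl l := hE.sub l hω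
  obtain ⟨n, c, hc, hcn, hrel, hmin⟩ := min_rel hB hE l hωD
  have hcR : ∀ i, i < n + 1 → c i ∈ R := by
    obtain ⟨z, hz, hzc, hz1, hz0⟩ := central_rel hB haw l (R ⊓ DL hB l) (fun x hx => hx.2)
      ⟨hωR, hωD⟩ n c hc hcn hrel
    have hzZ : ∀ i, z i ∈ ZL A l := fun i =>
      h2 (z i) (hz i).2 fun s hs hs' => hzc i s ⟨hs, hs'⟩
    obtain ⟨-, h3⟩ := hmin z hzZ hz0 hz1
    intro i hi
    rw [h3 i hi]
    exact mul_mem (inv_mem (hz n).1) (hz i).1
  have hcE : ∀ i, i < n + 1 → c i ∈ A.El l := by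
    obtain ⟨z, hz, hzc, hz1, hz0⟩ := central_rel hB haw l (EL hE l) (fun x hx => hE.sub l hx)
      hω n c hc hcn hrel
    have hzZ : ∀ i, z i ∈ ZL A l := fun i =>
      hE.cen l (z i) (hE.sub l (hz i)) fun e he => hzc i e he
    obtain ⟨-, h3⟩ := hmin z hzZ hz0 hz1
    intro i hi
    rw [h3 i hi]
    exact mul_mem (inv_mem (hz n)) (hz i)
  choose y hy hyc using hc
  by_contra hcon
  push Not at hcon
  have hyF : ∀ i, i < n + 1 → y i ∈ fix T.g := by
    intro i hi
    by_contra hyi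
    have h4 : A.ι (y i) ∈ A.El l := by rw [← hyc i]; exact hcE i hi
    refine hcon (y i) (hE.ι_mem' l _ h4) (hy i) hyi ?_
    rw [← hyc i]; exact hcR i hi
  have h5 := hNA ω n (fun i => if i < n + 1 then y i else 0) (fun i => by
    show (if i < n + 1 then y i else 0) ∈ fix T.g
    split_ifs with h
    · exact hyF i h
    · exact zero_mem _) (by
    simp only [Nat.lt_succ_self, if_true]
    intro h0
    have := hyc n
    rw [h0, map_zero, hcn] at this
    exact one_ne_zero this) (by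
    rw [← hrel]
    refine sum_congr rfl fun i hi => ?_
    rw [if_pos (mem_range.mp hi), ← hyc i])
  obtain ⟨f, hf, hωf⟩ := h5
  exact hωF ⟨f, hf, hωf.symm⟩

/-- last step of D10: dimensions -/
lemma Dl_le {T : Data K} {A : Alg T.toCore D} (hB : Base A) (hE : BaseE A)
    (hdens : S_dens) (R : Subfield D) (l : ℕ)
    (h2 : ∀ x ∈ A.Dl l, (∀ s ∈ R, s ∈ A.Dl l → s * x = x * s) →
      ∃ y, T.g l y = y ∧ x = A.ι y)
    (hZ : ∀ κ, T.g l κ = κ → A.ι κ ∈ R) : A.Dl l ⊆ R := by
  by_contra hcon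
  rw [Set.not_subset] at hcon
  obtain ⟨d₀, hd₀, hd₀R⟩ := hcon
  have hZR : ∀ z ∈ ZL A l, z ∈ R := by
    rintro _ ⟨x, hx, rfl⟩; exact hZ x hx
  let V : Submodule (ZL A l) D :=
    { carrier := A.Dl l
      add_mem' := fun {a b} ha hb => hB.add_mem l a b ha hb
      zero_mem' := hB.zero_mem l
      smul_mem' := fun z x hx => hB.mul_mem l _ _ (ZL_le hB l _ z.2) hx }
  let W : Submodule (ZL A l) D :=
    { carrier := {x | x ∈ R ∧ x ∈ A.Dl l}
      add_mem' := fun {a b} ha hb => ⟨add_mem ha.1 hb.1, hB.add_mem l a b ha.2 hb.2⟩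
      zero_mem' := ⟨zero_mem _, hB.zero_mem l⟩
      smul_mem' := fun z x hx =>
        ⟨mul_mem (hZR _ z.2) hx.1, hB.mul_mem l _ _ (ZL_le hB l _ z.2) hx.2⟩ }
  have hWV : W < V := by
    refine lt_of_le_of_ne (fun x hx => hx.2) ?_
    intro h
    have : d₀ ∈ W := by rw [h]; exact hd₀
    exact hd₀R this.1
  obtain ⟨N, e, -, he⟩ := DL_finite hB hE l
  have hVs : V ≤ Submodule.span (ZL A l) (Set.range e) := fun x hx => he x hx
  have hVfin : Module.Finite (ZL A l) V := by
    have : Module.Finite (ZL A l) (Submodule.span (ZL A l) (Set.range e)) :=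
      Module.Finite.span_of_finite _ (Set.finite_range e)
    exact Module.Finite.of_injective (Submodule.inclusion hVs) (Submodule.inclusion_injective hVs)
  have hWfin : Module.Finite (ZL A l) W :=
    Module.Finite.of_injective (Submodule.inclusion hWV.le)
      (Submodule.inclusion_injective hWV.le)
  have hlt : Module.finrank (ZL A l) W < Module.finrank (ZL A l) V :=
    Submodule.finrank_lt_finrank_of_lt hWV
  let dV := Module.finBasis (ZL A l) V
  let sW := Module.finBasis (ZL A l) W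
  let r : Fin (Module.finrank (ZL A l) V) → (Fin (Module.finrank (ZL A l) W) → DL hB l) :=
    fun j i => ⟨(sW i : D) * (dV j : D), hB.mul_mem l _ _ (sW i).2.2 (dV j).2⟩
  have hnl : ¬ LinearIndependent (DL hB l) r := by
    intro hli
    have := hli.fintype_card_le_finrank
    rw [Fintype.card_fin, Module.finrank_fin_fun] at this
    omega
  rw [Fintype.not_linearIndependent_iff] at hnl
  obtain ⟨c, hc0, j₀, hj₀⟩ := hnl
  have hc0' : ∀ i, ∑ j, (c j : D) * ((sW i : D) * (dV j : D)) = 0 := by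
    intro i
    have h3 := congrArg (fun f => ((f i : DL hB l) : D)) hc0
    simp only [Finset.sum_apply, Pi.smul_apply, smul_eq_mul, Pi.zero_apply] at h3
    rw [AddSubmonoidClass.coe_finsetSum] at h3
    exact h3
  have hall : ∀ s : DL hB l, (s : D) ∈ R →
      ∑ j, c j * s * (⟨(dV j : D), (dV j).2⟩ : DL hB l) = 0 := by
    intro s hs
    apply Subtype.ext
    rw [AddSubmonoidClass.coe_finsetSum]
    show ∑ j, (c j : D) * (s : D) * (dV j : D) = 0
    have hrep := sW.sum_repr (⟨(s : D), hs, s.2⟩ : W)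
    have hrep' : ∑ i, ((sW.repr ⟨(s : D), hs, s.2⟩ i : ZL A l) : D) * (sW i : D) = (s : D) := by
      have := congrArg (Subtype.val : W → D) hrep
      rw [AddSubmonoidClass.coe_finsetSum] at this
      exact this
    rw [← hrep']
    have h4 : ∀ j, (c j : D) *
        (∑ i, ((sW.repr ⟨(s : D), hs, s.2⟩ i : ZL A l) : D) * (sW i : D)) * (dV j : D) =
        ∑ i, ((sW.repr ⟨(s : D), hs, s.2⟩ i : ZL A l) : D) *
          ((c j : D) * ((sW i : D) * (dV j : D))) := by
      intro j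
      rw [mul_sum, sum_mul]
      refine sum_congr rfl fun i _ => ?_
      have h5 := ZL_comm hB l (sW.repr ⟨(s : D), hs, s.2⟩ i : ZL A l).2 (c j).2
      rw [← mul_assoc (c j : D), ← h5]
      simp only [mul_assoc]
    rw [sum_congr rfl fun j _ => h4 j, sum_comm]
    refine sum_eq_zero fun i _ => ?_
    rw [← mul_sum, hc0' i, mul_zero]
  obtain ⟨c', hc'ne, hc'c, hc'0⟩ := hdens (DL hB l) {x | (x : D) ∈ R} (one_mem R)
    (fun a ha b hb => mul_mem (S := Subfield D) ha hb)
    (Module.finrank (ZL A l) V) (fun j => (⟨(dV j : D), (dV j).2⟩ : DL hB l)) c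
    (fun h => hj₀ (congrFun h j₀)) hall
  have hc'Z : ∀ j, (c' j : D) ∈ ZL A l := by
    intro j
    refine h2 _ (c' j).2 fun s hs hsD => ?_
    have := hc'c j ⟨s, hsD⟩ hs
    exact congrArg Subtype.val this
  apply hc'ne
  have hli := dV.linearIndependent
  rw [Fintype.linearIndependent_iff] at hli
  have h6 := hli (fun j => ⟨(c' j : D), hc'Z j⟩) (by
    apply Subtype.ext
    rw [AddSubmonoidClass.coe_finsetSum]
    have := congrArg Subtype.val hc'0
    rw [AddSubmonoidClass.coe_finsetSum] at this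
    exact this)
  funext j
  have h7 : ((⟨(c' j : D), hc'Z j⟩ : ZL A l) : D) = ((0 : ZL A l) : D) :=
    congrArg (fun z : ZL A l => (z : D)) (h6 j)
  apply Subtype.ext
  exact h7

theorem D10 : S_C := by
  intro K _ _ T D _ A hB hE hNA hdens haw R hinv hF h1 h2
  obtain ⟨l₀, h1⟩ := h1
  obtain ⟨l₁, h2⟩ := h2
  let RF : Subfield D := { R with inv_mem' := hinv }
  have hRF : ∀ x, x ∈ RF ↔ x ∈ R := fun x => Iff.rfl
  obtain ⟨b, hbR, hb0, e, he, hbe⟩ := h1 l₀ le_rfl
  have he0 : e ≠ 0 := by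
    rintro rfl
    exact hb0 (by rw [hbe, zero_mul])
  have hbF : b ∉ A.Fs := by
    rw [hbe]; exact not_Fs_of_odd hB l₀ he he0
  obtain ⟨k, hk⟩ := hE.exh b
  let L : Subfield K :=
    { carrier := {x | A.ι x ∈ R}
      mul_mem' := fun {x y} hx hy => by
        show A.ι (x * y) ∈ R
        rw [map_mul]; exact mul_mem hx hy
      one_mem' := by
        show A.ι 1 ∈ R
        rw [map_one]; exact one_mem R
      add_mem' := fun {x y} hx hy => by
        show A.ι (x + y) ∈ R
        rw [map_add]; exact add_mem hx hy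
      zero_mem' := by
        show A.ι 0 ∈ R
        rw [map_zero]; exact zero_mem R
      neg_mem' := fun {x} hx => by
        show A.ι (-x) ∈ R
        rw [map_neg]; exact neg_mem hx
      inv_mem' := fun x hx => by
        show A.ι (x⁻¹) ∈ R
        rw [map_inv₀]; exact hinv _ hx }
  have hFL : fix T.g ≤ L := fun x hx => hF ⟨x, hx, rfl⟩
  have hc1 : ∀ l, k ≤ l → l₁ ≤ l → ∃ z ∈ T.M l, T.g l z = z ∧ z ∉ fix T.g ∧ A.ι z ∈ RF :=
    fun l hkl hl => exists_central hB hE hNA haw RF l (El_mono hE hkl hk) hbR hbF (h2 l hl)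
  have hc2 : ∀ l, max k (max l₀ l₁) ≤ l →
      ∃ z ∈ L, z ∈ T.M l ∧ T.g l z = z ∧ z ∉ fix T.g ∧ T.g (l + 1) z ∈ L := by
    intro l hl
    obtain ⟨z, hzM, hzg, hzF, hzR⟩ := hc1 l (le_trans (le_max_left _ _) hl)
      (le_trans (le_trans (le_max_right _ _) (le_max_right _ _)) hl)
    refine ⟨z, hzR, hzM, hzg, hzF, ?_⟩
    obtain ⟨b', hb'R, hb'0, e', he', hbe'⟩ := h1 l
      (le_trans (le_trans (le_max_left _ _) (le_max_right _ _)) hl)
    show A.ι (T.g (l + 1) z) ∈ R
    have hfix : T.g l (T.g (l + 1) z) = T.g (l + 1) z := by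
      rw [← T.g_sq l (T.g (l + 1) z), T.g_sq l z, hzg]
    have h3 : b' * A.ι z * b'⁻¹ = A.ι (T.g (l + 1) z) := by
      have h4 : b' * A.ι z = A.ι (T.g (l + 1) z) * b' := by
        rw [hbe', mul_assoc, A.u_comm, ← mul_assoc, ← mul_assoc,
          hB.cen l _ hfix e' he']
      rw [h4, mul_assoc, mul_inv_cancel₀ hb'0, mul_one]
    rw [← h3]
    exact mul_mem (mul_mem hb'R hzR) (hinv _ hb'R)
  have hc3 : ∀ l, max k (max l₀ l₁) ≤ l → ∀ κ, T.g l κ = κ → A.ι κ ∈ R := by
    intro l hl κ hκ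
    exact T.rig L hFL l (fun l' hl' => hc2 l' (le_trans hl hl')) κ hκ
  rw [Subring.eq_top_iff']
  intro x
  obtain ⟨l, hx⟩ := hB.exh x
  set l' := max l (max k (max l₀ l₁)) with hl'
  have hx' : x ∈ A.Dl l' := Dl_mono hB (le_max_left _ _) hx
  have := Dl_le hB hE hdens RF l' (h2 l' (le_trans (le_trans (le_max_right _ _)
    (le_max_right _ _)) (le_max_right _ _))) (hc3 l' (le_max_right _ _))
  exact this hx'

end Pool.Agent.Run7.h847.MP57
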