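import Pool.Agent.Run7.h847.MP57.D10

/-!
# MP_5766af_al, S01535, piece D11a (helper847): an element of `K` outside `F` in `S`
-/

noncomputable section

namespace Pool.Agent.Run7.h847.MP57

open Finset Pool.Agent.Run7.h378

variable {K : Type} [Field K] [CharZero K] {D : Type} [DivisionRing D]

/-- `F` is central -/
lemma fix_comm {C : Core K} {A : Alg C D} (hB : Base A) {x : K} (hx : x ∈ fix C.g) (d : D) :
    A.ι x * d = d * A.ι x := by
  obtain ⟨l, hl⟩ := hB.exh d
  exact hB.cen l x (hx l) d hl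

/-- `D` as an algebra over `F`. -/
@[reducible] def algF {C : Core K} {A : Alg C D} (hB : Base A) : Algebra (fix C.g) D :=
  RingHom.toAlgebra' (A.ι.comp (fix C.g).subtype) fun x d => fix_comm hB x.2 d

/-- elements of `F[c]` are polynomials in `c` -/
lemma exists_poly {C : Core K} {A : Alg C D} (hB : Base A) (c : D) {x : D}
    (hx : x ∈ Subring.closure (A.Fs ∪ {c})) :
    let _ := algF hB
    ∃ q : Polynomial (fix C.g), x = Polynomial.aeval c q := by
  let _ := algF hB
  have hx' : x ∈ Algebra.adjoin (fix C.g) {c} := by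
    have hle : Subring.closure (A.Fs ∪ {c}) ≤ (Algebra.adjoin (fix C.g) {c}).toSubring := by
      rw [Subring.closure_le]
      rintro y (⟨f, hf, rfl⟩ | rfl)
      · exact (Algebra.adjoin (fix C.g) {c}).algebraMap_mem ⟨f, hf⟩
      · exact Algebra.self_mem_adjoin_singleton _ _
    exact hle hx
  rw [Algebra.adjoin_singleton_eq_range_aeval] at hx'
  obtain ⟨q, hq⟩ := hx'
  exact ⟨q, hq.symm⟩

/-- common left denominators -/
lemma common_den {P : Subring D} {S : Subring D} (hPS : P ≤ S)
    (hden : ∀ d : D, ∃ p ∈ P, p ≠ 0 ∧ p * d ∈ S) (n : ℕ) (x : Fin n → D) :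
    ∃ p ∈ P, p ≠ 0 ∧ ∀ i, p * x i ∈ S := by
  induction n with
  | zero => exact ⟨1, one_mem _, one_ne_zero, fun i => i.elim0⟩
  | succ n ih =>
    obtain ⟨p, hp, hp0, hpx⟩ := ih (fun i => x i.castSucc)
    obtain ⟨q, hq, hq0, hqx⟩ := hden (p * x (Fin.last n))
    refine ⟨q * p, mul_mem hq hp, mul_ne_zero hq0 hp0, fun i => ?_⟩
    refine Fin.lastCases ?_ (fun j => ?_) i
    · rw [mul_assoc]; exact hqx
    · rw [mul_assoc]; exact mul_mem (hPS hq) (hpx j)

/-- the `K_l`-span of `S ∩ D_l` is `D_l` -/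
lemma span_S {T : Data K} {A : Alg T.toCore D} (hB : Base A) (hE : BaseE A) (l : ℕ)
    (S P : Subring D) (hPS : P ≤ S) (hPD : ∀ p ∈ P, p ∈ A.Dl l)
    (hden : ∀ d : D, ∃ p ∈ P, p ≠ 0 ∧ p * d ∈ S) (d : D) (hd : d ∈ A.Dl l) :
    d ∈ Submodule.span (ZL A l) {x : D | x ∈ S ∧ x ∈ A.Dl l} := by
  obtain ⟨p, hp, hp0, hpd⟩ := hden d
  set W := Submodule.span (ZL A l) {x : D | x ∈ S ∧ x ∈ A.Dl l} with hW
  have hpl : ∀ w ∈ W, p * w ∈ W := by
    intro w hw
    induction hw using Submodule.span_induction with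
    | mem x hx =>
      exact Submodule.subset_span ⟨mul_mem (hPS hp) hx.1, hB.mul_mem l _ _ (hPD p hp) hx.2⟩
    | zero => rw [mul_zero]; exact zero_mem _
    | add x y _ _ hx hy => rw [mul_add]; exact add_mem hx hy
    | smul a x _ hx =>
      have : p * (a • x) = a • (p * x) := by
        show p * ((a : D) * x) = (a : D) * (p * x)
        rw [← mul_assoc, ← mul_assoc, ZL_comm hB l a.2 (hPD p hp)]
      rw [this]
      exact Submodule.smul_mem _ _ hx
  have hWfin : Module.Finite (ZL A l) W := by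
    obtain ⟨N, e, -, he⟩ := DL_finite hB hE l
    have hle : W ≤ Submodule.span (ZL A l) (Set.range e) := by
      rw [hW, Submodule.span_le]
      intro x hx
      exact he x hx.2
    have : Module.Finite (ZL A l) (Submodule.span (ZL A l) (Set.range e)) :=
      Module.Finite.span_of_finite _ (Set.finite_range e)
    exact Module.Finite.of_injective (Submodule.inclusion hle) (Submodule.inclusion_injective hle)
  let f : W →ₗ[ZL A l] W :=
    { toFun := fun w => ⟨p * w, hpl w w.2⟩
      map_add' := fun x y => by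
        apply Subtype.ext
        show p * ((x : D) + y) = p * x + p * y
        rw [mul_add]
      map_smul' := fun a x => by
        apply Subtype.ext
        show p * ((a : D) * (x : D)) = (a : D) * (p * x)
        rw [← mul_assoc, ← mul_assoc, ZL_comm hB l a.2 (hPD p hp)] }
  have hinj : Function.Injective f := by
    intro x y hxy
    have h1 : p * (x : D) = p * (y : D) := congrArg Subtype.val hxy
    exact Subtype.ext (mul_left_cancel₀ hp0 h1)
  have hsurj := LinearMap.injective_iff_surjective.mp hinj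
  obtain ⟨w, hw⟩ := hsurj ⟨p * d, Submodule.subset_span
    ⟨hpd, hB.mul_mem l _ _ (hPD p hp) hd⟩⟩
  have h2 : p * (w : D) = p * d := congrArg Subtype.val hw
  rw [← mul_left_cancel₀ hp0 h2]
  exact w.2

/-- the trace-like form on `D_l` -/
lemma exists_form {T : Data K} {A : Alg T.toCore D} (hB : Base A) (hE : BaseE A) (haw : S_aw)
    (l : ℕ) : ∃ (n : ℕ) (s r : Fin n → D), (∀ i, s i ∈ A.Dl l) ∧ (∀ i, r i ∈ A.Dl l) ∧
      (∀ x ∈ A.Dl l, ∑ i, s i * x * r i ∈ ZL A l) ∧ ∃ x ∈ A.Dl l, ∑ i, s i * x * r i ≠ 0 := by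
  classical
  let V : Submodule (ZL A l) D :=
    { carrier := A.Dl l
      add_mem' := fun {a b} ha hb => hB.add_mem l a b ha hb
      zero_mem' := hB.zero_mem l
      smul_mem' := fun z x hx => hB.mul_mem l _ _ (ZL_le hB l _ z.2) hx }
  obtain ⟨N, e, -, he⟩ := DL_finite hB hE l
  have hVs : V ≤ Submodule.span (ZL A l) (Set.range e) := fun x hx => he x hx
  have hVfin : Module.Finite (ZL A l) V := by
    have : Module.Finite (ZL A l) (Submodule.span (ZL A l) (Set.range e)) :=
      Module.Finite.span_of_finite _ (Set.finite_range e)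
    exact Module.Finite.of_injective (Submodule.inclusion hVs) (Submodule.inclusion_injective hVs)
  let dV := Module.finBasis (ZL A l) V
  have hpos : 0 < Module.finrank (ZL A l) V := by
    have : Nontrivial V := ⟨⟨⟨1, hB.one_mem l⟩, 0, fun h => one_ne_zero (congrArg Subtype.val h)⟩⟩
    exact Module.finrank_pos
  let j₀ : Fin (Module.finrank (ZL A l) V) := ⟨0, hpos⟩
  obtain ⟨n, s, r, hs, hr, hsr⟩ := haw D (DL hB l).toSubring (fun x hx => hB.inv_mem l x hx)
    (Module.finrank (ZL A l) V) (fun j => (dV j : D)) (fun j => (dV j).2)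
    (fun c hc hcc h0 => by
      have hcZ : ∀ j, c j ∈ ZL A l := fun j =>
        hE.cen l (c j) (hc j) fun e he => hcc j e (hE.sub l he)
      have hli := dV.linearIndependent
      rw [Fintype.linearIndependent_iff] at hli
      have h6 := hli (fun j => ⟨c j, hcZ j⟩) (by
        apply Subtype.ext
        rw [AddSubmonoidClass.coe_finsetSum]
        exact h0)
      funext j
      exact congrArg (fun z : ZL A l => (z : D)) (h6 j))
    (fun j => if j = j₀ then 1 else 0) (fun j => by
      show (if j = j₀ then (1 : D) else 0) ∈ (DL hB l).toSubring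
      split_ifs
      · exact one_mem _
      · exact zero_mem _)
  refine ⟨n, s, r, hs, hr, ?_, (dV j₀ : D), (dV j₀).2, ?_⟩
  · intro x hx
    have hrep := dV.sum_repr (⟨x, hx⟩ : V)
    have hrep' : ∑ j, ((dV.repr ⟨x, hx⟩ j : ZL A l) : D) * (dV j : D) = x := by
      have := congrArg (Subtype.val : V → D) hrep
      rw [AddSubmonoidClass.coe_finsetSum] at this
      exact this
    have h7 : ∑ i, s i * x * r i = ((dV.repr ⟨x, hx⟩ j₀ : ZL A l) : D) := by
      have h8 : ∀ i, s i * x * r i =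
          ∑ j, ((dV.repr ⟨x, hx⟩ j : ZL A l) : D) * (s i * (dV j : D) * r i) := by
        intro i
        conv_lhs => rw [← hrep']
        rw [mul_sum, sum_mul]
        refine sum_congr rfl fun j _ => ?_
        have h5 := ZL_comm hB l (dV.repr ⟨x, hx⟩ j : ZL A l).2 (hs i)
        rw [← mul_assoc (s i), ← h5]
        simp only [mul_assoc]
      rw [sum_congr rfl fun i _ => h8 i, sum_comm]
      rw [sum_eq_single j₀]
      · rw [← mul_sum, hsr j₀]
        show _ * (if j₀ = j₀ then (1 : D) else 0) = _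
        rw [if_pos rfl, mul_one]
      · intro j _ hj
        rw [← mul_sum, hsr j]
        show _ * (if j = j₀ then (1 : D) else 0) = _
        rw [if_neg hj, mul_zero]
      · intro h; exact absurd (mem_univ _) h
    rw [h7]
    exact (dV.repr ⟨x, hx⟩ j₀).2
  · rw [hsr j₀]
    show (if j₀ = j₀ then (1 : D) else 0) ≠ 0
    rw [if_pos rfl]
    exact one_ne_zero

/-- first half of D11a -/
lemma exists_ct {T : Data K} {A : Alg T.toCore D} (hB : Base A) (hE : BaseE A) (haw : S_aw)
    (S : Subring D) (hF : A.Fs ⊆ S) {ω : D} (hω : ω ∈ S)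
    (hden : ∀ d : D, ∃ p ∈ Subring.closure (A.Fs ∪ {ω}), p ≠ 0 ∧ p * d ∈ S) :
    ∃ (c : D) (τ : K), c ≠ 0 ∧ τ ∉ fix T.g ∧ c * A.ι τ = A.ι τ * c ∧
      ∀ j : ℕ, c * (A.ι τ) ^ j ∈ S := by
  obtain ⟨k, hk⟩ := hE.exh ω
  have hωD := hE.sub k hk
  have hPS : Subring.closure (A.Fs ∪ {ω}) ≤ S := by
    rw [Subring.closure_le]
    rintro y (hy | hy)
    · exact hF hy
    · rw [Set.mem_singleton_iff.mp hy]; exact hω
  have hPD : ∀ p ∈ Subring.closure (A.Fs ∪ {ω}), p ∈ A.Dl k := by
    have hle : Subring.closure (A.Fs ∪ {ω}) ≤ (DL hB k).toSubring := by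
      rw [Subring.closure_le]
      rintro y (⟨f, hf, rfl⟩ | hy)
      · exact hB.ι_mem k f
      · rw [Set.mem_singleton_iff.mp hy]; exact hωD
    exact fun p hp => hle hp
  obtain ⟨n, s, r, hs, hr, hφ, x₀, hx₀, hx₀ne⟩ := exists_form hB hE haw k
  obtain ⟨c, hcP, hc0, hcs⟩ := common_den hPS hden n s
  obtain ⟨q, hqP, hq0, hqr⟩ := common_den hPS hden n r
  have hcD := hPD c hcP
  have hqD := hPD q hqP
  let ψ : D → D := fun x => ∑ i, s i * (x * q) * r i
  have hψZ : ∀ x ∈ A.Dl k, ψ x ∈ ZL A k := fun x hx => hφ (x * q) (hB.mul_mem k _ _ hx hqD)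
  have hψS : ∀ x ∈ S, c * ψ x ∈ S := by
    intro x hx
    show c * ∑ i, s i * (x * q) * r i ∈ S
    rw [mul_sum]
    refine sum_mem fun i _ => ?_
    have : c * (s i * (x * q) * r i) = (c * s i) * x * (q * r i) := by
      simp only [mul_assoc]
    rw [this]
    exact mul_mem (mul_mem (hcs i) hx) (hqr i)
  have hψlin : ∀ z ∈ ZL A k, ∀ x, ψ (z * x) = z * ψ x := by
    intro z hz x
    show ∑ i, s i * (z * x * q) * r i = z * ∑ i, s i * (x * q) * r i
    rw [mul_sum]
    refine sum_congr rfl fun i _ => ?_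
    have h1 := ZL_comm hB k hz (hs i)
    calc s i * (z * x * q) * r i = (s i * z) * (x * q) * r i := by simp only [mul_assoc]
      _ = (z * s i) * (x * q) * r i := by rw [h1]
      _ = z * (s i * (x * q) * r i) := by simp only [mul_assoc]
  have hψadd : ∀ x y, ψ (x + y) = ψ x + ψ y := by
    intro x y
    show ∑ i, s i * ((x + y) * q) * r i = _
    rw [← sum_add_distrib]
    refine sum_congr rfl fun i _ => ?_
    rw [add_mul, mul_add, add_mul]
  have hψ0 : ψ 0 = 0 := by
    show ∑ i, s i * (0 * q) * r i = 0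
    refine sum_eq_zero fun i _ => ?_
    rw [zero_mul, mul_zero, zero_mul]
  have hψmul : ∀ x ∈ A.Dl k, ∀ y, ψ x * ψ (c * y) = ψ ((c * ψ x) * y) := by
    intro x hx y
    rw [← hψlin _ (hψZ x hx)]
    have h1 := ZL_comm hB k (hψZ x hx) hcD
    rw [← mul_assoc, h1]
  obtain ⟨y, hyS, hyD, hyF⟩ : ∃ y ∈ S, y ∈ A.Dl k ∧ ψ (c * y) ∉ A.Fs := by
    by_contra hcon
    push Not at hcon
    obtain ⟨κ, -, hκg, hκF⟩ := hE.exists_Z k
    have hκZ : A.ι κ ∈ ZL A k := ⟨κ, hκg, rfl⟩
    obtain ⟨ρ, hρP, hρ0, hρκ⟩ := hden (A.ι κ)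
    have hρD := hPD ρ hρP
    have h0 : ∀ x ∈ S, x ∈ A.Dl k → ψ (c * (ρ * x)) = 0 := by
      intro x hx hxD
      obtain ⟨f2, hf2, hf2e⟩ := hcon (ρ * x) (mul_mem (hPS hρP) hx) (hB.mul_mem k _ _ hρD hxD)
      obtain ⟨f1, hf1, hf1e⟩ := hcon (ρ * A.ι κ * x) (mul_mem hρκ hx)
        (hB.mul_mem k _ _ (hB.mul_mem k _ _ hρD (hB.ι_mem k κ)) hxD)
      have h1 : c * (ρ * A.ι κ * x) = A.ι κ * (c * (ρ * x)) := by
        have h2 := ZL_comm hB k hκZ hρD
        have h3 := ZL_comm hB k hκZ hcD
        calc c * (ρ * A.ι κ * x) = c * (A.ι κ * ρ) * x := by rw [h2]; simp only [mul_assoc]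
          _ = (c * A.ι κ) * ρ * x := by simp only [mul_assoc]
          _ = (A.ι κ * c) * ρ * x := by rw [h3]
          _ = A.ι κ * (c * (ρ * x)) := by simp only [mul_assoc]
      rw [h1, hψlin _ hκZ, ← hf2e, ← map_mul] at hf1e
      have h4 : f1 = κ * f2 := A.ι.injective hf1e
      by_contra hne
      have hf20 : f2 ≠ 0 := by
        rintro rfl
        exact hne (by rw [← hf2e, map_zero])
      apply hκF
      have : κ = f1 / f2 := by rw [h4, mul_div_assoc, div_self hf20, mul_one]
      rw [this]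
      exact div_mem hf1 hf2
    have h1 : ∀ d ∈ A.Dl k, ψ (c * (ρ * d)) = 0 := by
      intro d hd
      have hspan := span_S hB hE k S _ hPS hPD hden d hd
      induction hspan using Submodule.span_induction with
      | mem x hx => exact h0 x hx.1 hx.2
      | zero => rw [mul_zero, mul_zero, hψ0]
      | add x y hx' hy' hx hy =>
        have hle : ∀ w ∈ Submodule.span (ZL A k) {x : D | x ∈ S ∧ x ∈ A.Dl k}, w ∈ A.Dl k := by
          intro w hw
          induction hw using Submodule.span_induction with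
          | mem x hx => exact hx.2
          | zero => exact hB.zero_mem k
          | add x y _ _ hx hy => exact hB.add_mem k _ _ hx hy
          | smul a x _ hx => exact hB.mul_mem k _ _ (ZL_le hB k _ a.2) hx
        rw [mul_add, mul_add, hψadd, hx (hle _ hx'), hy (hle _ hy'), add_zero]
      | smul a x hx' hx =>
        have hle : ∀ w ∈ Submodule.span (ZL A k) {x : D | x ∈ S ∧ x ∈ A.Dl k}, w ∈ A.Dl k := by
          intro w hw
          induction hw using Submodule.span_induction with
          | mem x hx => exact hx.2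
          | zero => exact hB.zero_mem k
          | add x y _ _ hx hy => exact hB.add_mem k _ _ hx hy
          | smul a x _ hx => exact hB.mul_mem k _ _ (ZL_le hB k _ a.2) hx
        have h2 := ZL_comm hB k a.2 hρD
        have h3 := ZL_comm hB k a.2 hcD
        have h4 : c * (ρ * (a • x)) = (a : D) * (c * (ρ * x)) := by
          show c * (ρ * ((a : D) * x)) = (a : D) * (c * (ρ * x))
          calc c * (ρ * ((a : D) * x)) = c * (ρ * (a : D)) * x := by simp only [mul_assoc]
            _ = c * ((a : D) * ρ) * x := by rw [h2]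
            _ = (c * (a : D)) * ρ * x := by simp only [mul_assoc]
            _ = ((a : D) * c) * ρ * x := by rw [h3]
            _ = (a : D) * (c * (ρ * x)) := by simp only [mul_assoc]
        rw [h4, hψlin _ a.2, hx (hle _ hx'), mul_zero]
    have h2 := h1 (ρ⁻¹ * (c⁻¹ * (x₀ * q⁻¹))) (hB.mul_mem k _ _ (hB.inv_mem k _ hρD)
      (hB.mul_mem k _ _ (hB.inv_mem k _ hcD) (hB.mul_mem k _ _ hx₀ (hB.inv_mem k _ hqD))))
    rw [mul_inv_cancel_left₀ hρ0, mul_inv_cancel_left₀ hc0] at h2
    apply hx₀ne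
    have h3 : ψ (x₀ * q⁻¹) = ∑ i, s i * x₀ * r i := by
      show ∑ i, s i * (x₀ * q⁻¹ * q) * r i = _
      rw [inv_mul_cancel_right₀ hq0]
    rw [← h3, h2]
  have hcyD := hB.mul_mem k _ _ hcD hyD
  obtain ⟨τ, hτg, hτ⟩ := hψZ (c * y) hcyD
  have hpow : ∀ j : ℕ, ∃ x ∈ S, x ∈ A.Dl k ∧ (A.ι τ) ^ (j + 1) = ψ x := by
    intro j
    induction j with
    | zero =>
      exact ⟨c * y, mul_mem (hPS hcP) hyS, hcyD, by rw [zero_add, pow_one, hτ]⟩
    | succ j ih =>
      obtain ⟨x, hxS, hxD, hx⟩ := ih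
      refine ⟨(c * ψ x) * y, mul_mem (hψS x hxS) hyS, hB.mul_mem k _ _ (hB.mul_mem k _ _ hcD
        (ZL_le hB k _ (hψZ x hxD))) hyD, ?_⟩
      rw [pow_succ, hx, ← hτ, hψmul x hxD y]
  refine ⟨c, τ, hc0, ?_, ?_, ?_⟩
  · intro h
    exact hyF ⟨τ, h, hτ.symm⟩
  · exact (ZL_comm hB k ⟨τ, hτg, rfl⟩ hcD).symm
  · intro j
    cases j with
    | zero => rw [pow_zero, mul_one]; exact hPS hcP
    | succ j =>
      obtain ⟨x, hxS, hxD, hx⟩ := hpow j
      rw [hx]
      exact hψS x hxS

lemma rel_shift (c : D) (hc : c ≠ 0) (a : ℕ → D) (N : ℕ) (h0 : ∑ j ∈ range N, a j * c ^ j = 0)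
    (h1 : ∃ j, j < N ∧ a j ≠ 0) : ∃ j₀ M : ℕ, a j₀ ≠ 0 ∧
      a j₀ = -∑ m ∈ range M, a (j₀ + m + 1) * c ^ (m + 1) := by
  classical
  set j₀ := Nat.find h1 with hj₀
  obtain ⟨hlt, hne⟩ := Nat.find_spec h1
  have hmin : ∀ j, j < j₀ → a j = 0 := by
    intro j hj
    by_contra hne'
    exact Nat.find_min h1 hj ⟨by omega, hne'⟩
  obtain ⟨M, hM⟩ : ∃ M, N = j₀ + (M + 1) := ⟨N - j₀ - 1, by omega⟩
  refine ⟨j₀, M, hne, ?_⟩
  rw [hM, sum_range_add] at h0
  have h2 : ∑ x ∈ range j₀, a x * c ^ x = 0 :=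
    sum_eq_zero fun j hj => by rw [hmin j (mem_range.mp hj), zero_mul]
  rw [h2, zero_add] at h0
  have h3 : (∑ x ∈ range (M + 1), a (j₀ + x) * c ^ x) * c ^ j₀ = 0 := by
    rw [← h0, sum_mul]
    refine sum_congr rfl fun x _ => ?_
    rw [mul_assoc, ← pow_add, add_comm x j₀]
  have h4 := (mul_eq_zero.mp h3).resolve_right (pow_ne_zero _ hc)
  rw [sum_range_succ'] at h4
  simp only [pow_zero, mul_one, add_zero] at h4
  have h5 : ∑ x ∈ range M, a (j₀ + (x + 1)) * c ^ (x + 1) =
      ∑ m ∈ range M, a (j₀ + m + 1) * c ^ (m + 1) :=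
    sum_congr rfl fun x _ => by rw [add_assoc]
  rw [h5] at h4
  exact eq_neg_of_add_eq_zero_right h4

theorem D11a : S_F1 := by
  classical
  intro K _ _ T D _ A hB hE hNA haw hLF halg S hF hex hloc
  obtain ⟨ω, hω, hωF⟩ := hex
  obtain ⟨c, τ, hc0, hτF, hcomm, hcj⟩ := exists_ct hB hE haw S hF hω (hloc ω hω hωF)
  by_cases hcF : c ∈ A.Fs
  · obtain ⟨f, hf, rfl⟩ := hcF
    refine ⟨τ, hτF, ?_⟩
    have hf0 : f ≠ 0 := by
      rintro rfl
      exact hc0 (map_zero _)
    have h1 : A.ι f⁻¹ ∈ S := hF ⟨f⁻¹, inv_mem hf, rfl⟩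
    have h2 := mul_mem h1 (hcj 1)
    rw [pow_one, ← mul_assoc, ← map_mul, inv_mul_cancel₀ hf0, map_one, one_mul] at h2
    exact h2
  · let _ := algF hB
    set t : D := A.ι τ with ht
    have halgmap : ∀ f : fix T.g, algebraMap (fix T.g) D f = A.ι (f : K) := fun f => rfl
    have ht0 : t ≠ 0 := by
      intro h
      apply hτF
      have : τ = 0 := A.ι.injective (by rw [← ht, h, map_zero])
      rw [this]; exact zero_mem _
    obtain ⟨l₁, hl₁⟩ := hE.exh c
    obtain ⟨l₂, hl₂⟩ := hE.exh t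
    obtain ⟨n, p, hp, hp0, hrel⟩ := hLF K T D A hB hE hNA halg (max l₁ l₂) c 1 t
      (El_mono hE (le_max_left _ _) hl₁) hcF (hE.one_mem _) (El_mono hE (le_max_right _ _) hl₂) ht0
    have hp' : ∀ i, p i ∈ Subring.closure (A.Fs ∪ {c}) := by
      intro i
      refine Subring.closure_mono ?_ (hp i)
      exact Set.union_subset_union_left _ (Set.image_mono (Set.inter_subset_left))
    choose q hq using fun i => exists_poly hB c (hp' i)
    have hpoly : ∀ P : Polynomial (fix T.g), ∃ y : K, Polynomial.aeval t P = A.ι y := by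
      intro P
      refine ⟨∑ i ∈ range (P.natDegree + 1), ((P.coeff i : fix T.g) : K) * τ ^ i, ?_⟩
      rw [Polynomial.aeval_eq_sum_range, map_sum]
      refine sum_congr rfl fun i _ => ?_
      rw [Algebra.smul_def, halgmap, map_mul, map_pow]
    have hinj : ∀ P : Polynomial (fix T.g), Polynomial.aeval t P = 0 → P = 0 := by
      intro P hP
      by_contra hP0
      rw [Polynomial.aeval_eq_sum_range] at hP
      obtain ⟨f, hf, hft⟩ := hNA t P.natDegree (fun i => ((P.coeff i : fix T.g) : K))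
        (fun i => (P.coeff i).2) (by
          have := Polynomial.leadingCoeff_ne_zero.mpr hP0
          intro h
          exact this (Subtype.ext h)) (by
          rw [← hP]
          refine sum_congr rfl fun i _ => ?_
          rw [Algebra.smul_def, halgmap])
      apply hτF
      have : τ = f := A.ι.injective hft
      rw [this]; exact hf
    have hmem : ∀ (P : Polynomial (fix T.g)) (m : ℕ), Polynomial.aeval t P * c ^ (m + 1) ∈ S := by
      intro P m
      have hcS : c ∈ S := by
        have := hcj 0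
        rwa [pow_zero, mul_one] at this
      have hct : ∀ i : ℕ, t ^ i * c = c * t ^ i := by
        intro i
        have hcm : Commute c t := hcomm
        exact ((hcm.pow_right i).eq).symm
      rw [pow_succ', ← mul_assoc]
      refine mul_mem ?_ (pow_mem hcS m)
      rw [Polynomial.aeval_eq_sum_range, sum_mul]
      refine sum_mem fun i _ => ?_
      rw [Algebra.smul_def, halgmap, mul_assoc, hct i]
      exact mul_mem (hF ⟨_, (P.coeff i).2, rfl⟩) (hcj i)
    let P : ℕ → Polynomial (fix T.g) := fun j =>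
      ∑ i ∈ range (n + 1), Polynomial.C ((q i).coeff j) * Polynomial.X ^ i
    set N := (Finset.range (n + 1)).sup (fun i => (q i).natDegree) + 1 with hN
    have hNle : ∀ i, i < n + 1 → (q i).natDegree < N := by
      intro i hi
      have := Finset.le_sup (f := fun i => (q i).natDegree) (mem_range.mpr hi)
      exact Nat.lt_succ_of_le this
    have hct : ∀ i j : ℕ, t ^ i * c ^ j = c ^ j * t ^ i := by
      intro i j
      have hcm : Commute c t := hcomm
      exact ((hcm.pow_pow j i).eq).symm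
    have hsum : ∑ j ∈ range N, Polynomial.aeval t (P j) * c ^ j = 0 := by
      have h1 : ∀ j ∈ range N, Polynomial.aeval t (P j) * c ^ j =
          ∑ i ∈ range (n + 1), (A.ι (((q i).coeff j : fix T.g) : K) * c ^ j) * t ^ i := by
        intro j _
        show Polynomial.aeval t (∑ i ∈ range (n + 1),
          Polynomial.C ((q i).coeff j) * Polynomial.X ^ i) * c ^ j = _
        rw [map_sum, sum_mul]
        refine sum_congr rfl fun i _ => ?_
        rw [map_mul, Polynomial.aeval_C, map_pow, Polynomial.aeval_X, halgmap, mul_assoc, hct,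
          mul_assoc]
      rw [sum_congr rfl h1, sum_comm]
      rw [← hrel]
      refine sum_congr rfl fun i hi => ?_
      rw [← sum_mul, mul_one, hq i]
      congr 1
      rw [Polynomial.aeval_eq_sum_range' (hNle i (mem_range.mp hi))]
      refine sum_congr rfl fun j _ => ?_
      rw [Algebra.smul_def, halgmap]
    have hP0 : ∃ j, j < N ∧ Polynomial.aeval t (P j) ≠ 0 := by
      have hq0 : q 0 ≠ 0 := by
        intro h
        apply hp0
        rw [hq 0, h, map_zero]
      refine ⟨(q 0).natDegree, hNle 0 (by omega), fun h => ?_⟩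
      have h2 := congrArg (fun R : Polynomial (fix T.g) => R.coeff 0) (hinj _ h)
      simp only [P, Polynomial.finsetSum_coeff, Polynomial.coeff_C_mul, Polynomial.coeff_X_pow,
        Polynomial.coeff_zero] at h2
      rw [sum_eq_single 0] at h2
      · simp only [if_true, mul_one] at h2
        exact Polynomial.leadingCoeff_ne_zero.mpr hq0 h2
      · intro i _ hi
        rw [if_neg (fun h => hi h.symm), mul_zero]
      · intro h
        exact absurd (mem_range.mpr (by omega)) h
    obtain ⟨j₀, M, hj0, hj1⟩ := rel_shift c hc0 (fun j => Polynomial.aeval t (P j)) N hsum hP0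
    obtain ⟨y, hy⟩ := hpoly (P j₀)
    have hyS : A.ι y ∈ S := by
      rw [← hy, hj1]
      exact neg_mem (sum_mem fun m _ => hmem _ _)
    have hτyS : A.ι (τ * y) ∈ S := by
      rw [map_mul, ← hy, ← ht, hj1, mul_neg, mul_sum]
      refine neg_mem (sum_mem fun m _ => ?_)
      have : t * (Polynomial.aeval t (P (j₀ + m + 1)) * c ^ (m + 1)) =
          Polynomial.aeval t (Polynomial.X * P (j₀ + m + 1)) * c ^ (m + 1) := by
        rw [map_mul, Polynomial.aeval_X, mul_assoc]
      rw [this]
      exact hmem _ _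
    by_contra hcon
    push Not at hcon
    have hyF : y ∈ fix T.g := by
      by_contra h
      exact hcon y h hyS
    have hτyF : τ * y ∈ fix T.g := by
      by_contra h
      exact hcon _ h hτyS
    have hy0 : y ≠ 0 := by
      rintro rfl
      exact hj0 (by rw [hy, map_zero])
    apply hτF
    have : τ = τ * y / y := by rw [mul_div_assoc, div_self hy0, mul_one]
    rw [this]
    exact div_mem hτyF hyF

end Pool.Agent.Run7.h847.MP57
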