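import Pool.Agent.Run7.h847.MP57.Sub

/-!
# MP_5766af_al, S01535: minimal polynomials over `K_l` (helper847)
-/

noncomputable section

namespace Pool.Agent.Run7.h847.MP57

open Finset Pool.Agent.Run7.h378

variable {K : Type} [Field K] [CharZero K] {D : Type} [DivisionRing D]

lemma top_rel (c f : ℕ → D) (m : ℕ) (h0 : ∑ i ∈ range m, c i * f i = 0)
    (h1 : ∃ i, i < m ∧ c i ≠ 0) :
    ∃ n, n < m ∧ c n ≠ 0 ∧ ∑ i ∈ range (n + 1), c i * f i = 0 := by
  induction m with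
  | zero => obtain ⟨i, hi, -⟩ := h1; omega
  | succ m ih =>
    by_cases hm : c m = 0
    · rw [sum_range_succ, hm, zero_mul, add_zero] at h0
      obtain ⟨i, hi, hci⟩ := h1
      have : i < m := by
        rcases Nat.lt_succ_iff_lt_or_eq.mp hi with h | h
        · exact h
        · rw [h] at hci; exact absurd hm hci
      obtain ⟨n, hn, h2, h3⟩ := ih h0 ⟨i, this, hci⟩
      exact ⟨n, by omega, h2, h3⟩
    · exact ⟨m, by omega, hm, h0⟩

lemma exists_rel {T : Data K} {A : Alg T.toCore D} (hB : Base A) (hE : BaseE A) (l : ℕ) {ω : D}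
    (hω : ω ∈ A.Dl l) : ∃ (n : ℕ) (c : ℕ → D), (∀ i, c i ∈ ZL A l) ∧ c n ≠ 0 ∧
      ∑ i ∈ range (n + 1), c i * ω ^ i = 0 := by
  obtain ⟨N, e, -, he⟩ := DL_finite hB hE l
  set V : Submodule (ZL A l) D := Submodule.span (ZL A l) (Set.range e) with hV
  have hfin : Module.Finite (ZL A l) V := Module.Finite.span_of_finite _ (Set.finite_range e)
  have hpow : ∀ i : ℕ, ω ^ i ∈ V := fun i => he _ ((DL hB l).pow_mem hω i)
  have hnl : ¬ LinearIndependent (ZL A l) (fun i : Fin (N + 1) => (⟨ω ^ (i : ℕ), hpow i⟩ : V)) := by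
    intro hli
    have h1 := hli.fintype_card_le_finrank
    have h2 : Module.finrank (ZL A l) V ≤ N := by
      have := finrank_range_le_card (R := ZL A l) e
      simpa [Set.finrank] using this
    simp at h1
    omega
  rw [Fintype.not_linearIndependent_iff] at hnl
  obtain ⟨g, hg, i, hi⟩ := hnl
  let c : ℕ → D := fun k => if h : k < N + 1 then (g ⟨k, h⟩ : D) else 0
  have hc : ∀ k, c k ∈ ZL A l := by
    intro k
    simp only [c]
    split_ifs with h
    · exact (g ⟨k, h⟩).2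
    · exact zero_mem _
  have h0 : ∑ k ∈ range (N + 1), c k * ω ^ k = 0 := by
    have h3 := congrArg (Subtype.val : V → D) hg
    rw [← Fin.sum_univ_eq_sum_range (fun k => c k * ω ^ k) (N + 1)]
    simp only [AddSubmonoidClass.coe_finsetSum, ZeroMemClass.coe_zero] at h3
    rw [← h3]
    refine sum_congr rfl fun k _ => ?_
    simp only [c, k.2, dif_pos]
    rfl
  obtain ⟨n, -, h1, h2⟩ := top_rel c (fun k => ω ^ k) (N + 1) h0 ⟨i, i.2, by
    simp only [c, i.2, dif_pos]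
    simpa using hi⟩
  exact ⟨n, c, hc, h1, h2⟩

lemma min_rel {T : Data K} {A : Alg T.toCore D} (hB : Base A) (hE : BaseE A) (l : ℕ) {ω : D}
    (hω : ω ∈ A.Dl l) : ∃ (n : ℕ) (c : ℕ → D), (∀ i, c i ∈ ZL A l) ∧ c n = 1 ∧
      ∑ i ∈ range (n + 1), c i * ω ^ i = 0 ∧
      ∀ z : ℕ → D, (∀ i, z i ∈ ZL A l) → ∑ i ∈ range (n + 1), z i * ω ^ i = 0 →
        (∃ i, i < n + 1 ∧ z i ≠ 0) → z n ≠ 0 ∧ ∀ i, i < n + 1 → c i = (z n)⁻¹ * z i := by
  classical
  let P : ℕ → Prop := fun n => ∃ c : ℕ → D, (∀ i, c i ∈ ZL A l) ∧ c n ≠ 0 ∧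
    ∑ i ∈ range (n + 1), c i * ω ^ i = 0
  have hP : ∃ n, P n := by
    obtain ⟨n, c, h⟩ := exists_rel hB hE l hω
    exact ⟨n, c, h⟩
  obtain ⟨c, hc, hcn, hrel⟩ := Nat.find_spec hP
  set n := Nat.find hP with hn
  have key : ∀ z : ℕ → D, (∀ i, z i ∈ ZL A l) → ∑ i ∈ range (n + 1), z i * ω ^ i = 0 →
      (∃ i, i < n + 1 ∧ z i ≠ 0) → z n ≠ 0 := by
    intro z hz h0 h1
    obtain ⟨k, hk, hzk, hk0⟩ := top_rel z (fun k => ω ^ k) (n + 1) h0 h1
    have : n ≤ k := Nat.find_min' hP ⟨z, hz, hzk, hk0⟩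
    have : k = n := by omega
    rwa [this] at hzk
  refine ⟨n, fun i => (c n)⁻¹ * c i, fun i => mul_mem (inv_mem (hc n)) (hc i),
    inv_mul_cancel₀ hcn, ?_, ?_⟩
  · have : ∀ i ∈ range (n + 1), (c n)⁻¹ * c i * ω ^ i = (c n)⁻¹ * (c i * ω ^ i) :=
      fun i _ => mul_assoc _ _ _
    rw [sum_congr rfl this, ← mul_sum, hrel, mul_zero]
  · intro z hz h0 h1
    have hzn := key z hz h0 h1
    refine ⟨hzn, ?_⟩
    by_contra hcon
    push Not at hcon
    obtain ⟨i, hi, hne⟩ := hcon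
    have h2 : ∑ i ∈ range (n + 1), ((c n)⁻¹ * c i - (z n)⁻¹ * z i) * ω ^ i = 0 := by
      have : ∀ i ∈ range (n + 1), ((c n)⁻¹ * c i - (z n)⁻¹ * z i) * ω ^ i =
          (c n)⁻¹ * (c i * ω ^ i) - (z n)⁻¹ * (z i * ω ^ i) := by
        intro i _
        rw [sub_mul, mul_assoc, mul_assoc]
      rw [sum_congr rfl this, sum_sub_distrib, ← mul_sum, ← mul_sum, hrel, h0, mul_zero, mul_zero,
        sub_zero]
    have h3 := key (fun i => (c n)⁻¹ * c i - (z n)⁻¹ * z i)
      (fun i => sub_mem (mul_mem (inv_mem (hc n)) (hc i)) (mul_mem (inv_mem (hz n)) (hz i))) h2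
      ⟨i, hi, sub_ne_zero.mpr hne⟩
    apply h3
    show (c n)⁻¹ * c n - (z n)⁻¹ * z n = 0
    rw [inv_mul_cancel₀ hcn, inv_mul_cancel₀ hzn, sub_self]

/-- relation with coefficients in the centre of a division subring -/
lemma central_rel {T : Data K} {A : Alg T.toCore D} (hB : Base A) (haw : S_aw) (l : ℕ)
    (Q : Subfield D) (hQ : ∀ x ∈ Q, x ∈ A.Dl l) {ω : D} (hω : ω ∈ Q) (n : ℕ) (c : ℕ → D)
    (hc : ∀ i, c i ∈ ZL A l) (hn : c n = 1) (hrel : ∑ i ∈ range (n + 1), c i * ω ^ i = 0) :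
    ∃ z : ℕ → D, (∀ i, z i ∈ Q) ∧ (∀ i, ∀ s ∈ Q, s * z i = z i * s) ∧
      (∃ i, i < n + 1 ∧ z i ≠ 0) ∧ ∑ i ∈ range (n + 1), z i * ω ^ i = 0 := by
  classical
  by_contra hcon
  push Not at hcon
  have h1 : ∀ c' : Fin (n + 1) → D, (∀ j, c' j ∈ Q.toSubring) →
      (∀ j, ∀ s ∈ Q.toSubring, s * c' j = c' j * s) →
      ∑ j, c' j * (ω ^ (j : ℕ)) = 0 → c' = 0 := by
    intro c' hc' hcc h0
    by_contra hne
    obtain ⟨j, hj⟩ := Function.ne_iff.mp hne
    let z : ℕ → D := fun k => if h : k < n + 1 then c' ⟨k, h⟩ else 0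
    refine hcon z ?_ ?_ ⟨j, j.2, ?_⟩ ?_
    · intro i
      simp only [z]
      split_ifs with h
      · exact hc' _
      · exact zero_mem _
    · intro i s hs
      simp only [z]
      split_ifs with h
      · exact hcc _ s hs
      · rw [mul_zero, zero_mul]
    · simp only [z, j.2, dif_pos]
      simpa using hj
    · rw [← Fin.sum_univ_eq_sum_range (fun k => z k * ω ^ k) (n + 1), ← h0]
      refine sum_congr rfl fun k _ => ?_
      simp only [z, k.2, dif_pos]
  obtain ⟨m, s, r, hs, hr, hsr⟩ := haw D Q.toSubring (fun x hx => Q.inv_mem hx) (n + 1)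
    (fun j => ω ^ (j : ℕ)) (fun j => Q.pow_mem hω j) h1
    (fun j => if j = Fin.last n then 1 else 0) (fun j => by
      show (if j = Fin.last n then (1 : D) else 0) ∈ Q.toSubring
      split_ifs
      · exact one_mem _
      · exact zero_mem _)
  have h2 : ∑ j : Fin (n + 1), c j * ∑ i, s i * ω ^ (j : ℕ) * r i = 1 := by
    rw [sum_eq_single (Fin.last n)]
    · have := hsr (Fin.last n)
      simp only [if_true] at this
      rw [this, Fin.val_last, hn, mul_one]
    · intro j _ hj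
      have := hsr j
      simp only [if_neg hj] at this
      rw [this, mul_zero]
    · intro h; exact absurd (mem_univ _) h
  have h3 : ∑ j : Fin (n + 1), c j * ∑ i, s i * ω ^ (j : ℕ) * r i = 0 := by
    have h4 : ∀ j : Fin (n + 1), c j * ∑ i, s i * ω ^ (j : ℕ) * r i =
        ∑ i, s i * (c j * ω ^ (j : ℕ)) * r i := by
      intro j
      rw [mul_sum]
      refine sum_congr rfl fun i _ => ?_
      have : c j * s i = s i * c j := ZL_comm hB l (hc j) (hQ _ (hs i))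
      rw [← mul_assoc, ← mul_assoc, this, mul_assoc (s i) (c j)]
    rw [sum_congr rfl fun j _ => h4 j, sum_comm]
    refine sum_eq_zero fun i _ => ?_
    rw [← sum_mul, ← mul_sum, Fin.sum_univ_eq_sum_range (fun k => c k * ω ^ k) (n + 1), hrel,
      mul_zero, zero_mul]
  rw [h2] at h3
  exact one_ne_zero h3

end Pool.Agent.Run7.h847.MP57
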