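import Pool.Agent.Run7.h378.IfaceD

/-!
# MP_5766af_al, S01535: `D_l`, `K_l` as division subrings (helper847)
-/

noncomputable section

namespace Pool.Agent.Run7.h847.MP57

open Finset Pool.Agent.Run7.h378

variable {K : Type} [Field K] [CharZero K] {D : Type} [DivisionRing D]

/-- `D_l` as a division subring. -/
def DL {C : Core K} {A : Alg C D} (hB : Base A) (l : ℕ) : Subfield D where
  carrier := A.Dl l
  mul_mem' := fun {a b} ha hb => hB.mul_mem l a b ha hb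
  one_mem' := hB.one_mem l
  add_mem' := fun {a b} ha hb => hB.add_mem l a b ha hb
  zero_mem' := hB.zero_mem l
  neg_mem' := fun {a} ha => hB.neg_mem l a ha
  inv_mem' := fun a ha => hB.inv_mem l a ha

/-- `K_l` as a subfield of `D`. -/
def ZL {C : Core K} (A : Alg C D) (l : ℕ) : Subfield D where
  carrier := {d | ∃ x, C.g l x = x ∧ d = A.ι x}
  mul_mem' := by
    rintro _ _ ⟨x, hx, rfl⟩ ⟨y, hy, rfl⟩
    exact ⟨x * y, by rw [map_mul, hx, hy], by rw [map_mul]⟩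
  one_mem' := ⟨1, map_one _, (map_one _).symm⟩
  add_mem' := by
    rintro _ _ ⟨x, hx, rfl⟩ ⟨y, hy, rfl⟩
    exact ⟨x + y, by rw [map_add, hx, hy], by rw [map_add]⟩
  zero_mem' := ⟨0, map_zero _, (map_zero _).symm⟩
  neg_mem' := by
    rintro _ ⟨x, hx, rfl⟩
    exact ⟨-x, by rw [map_neg, hx], by rw [map_neg]⟩
  inv_mem' := by
    rintro _ ⟨x, hx, rfl⟩
    exact ⟨x⁻¹, by rw [map_inv₀, hx], by rw [map_inv₀]⟩

/-- `E_l` as a division subring. -/
def EL {T : Data K} {A : Alg T.toCore D} (hE : BaseE A) (l : ℕ) : Subfield D where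
  carrier := A.El l
  mul_mem' := fun {a b} ha hb => hE.mul_mem l a b ha hb
  one_mem' := hE.one_mem l
  add_mem' := fun {a b} ha hb => hE.add_mem l a b ha hb
  zero_mem' := hE.zero_mem l
  neg_mem' := fun {a} ha => hE.neg_mem l a ha
  inv_mem' := fun a ha => hE.inv_mem l a ha

/-- the centre `F` as a subfield of `D`. -/
def FL {C : Core K} (A : Alg C D) : Subfield D where
  carrier := A.Fs
  mul_mem' := by
    rintro _ _ ⟨x, hx, rfl⟩ ⟨y, hy, rfl⟩
    exact ⟨x * y, mul_mem hx hy, by rw [map_mul]⟩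
  one_mem' := ⟨1, one_mem (fix C.g), (map_one _)⟩
  add_mem' := by
    rintro _ _ ⟨x, hx, rfl⟩ ⟨y, hy, rfl⟩
    exact ⟨x + y, add_mem hx hy, by rw [map_add]⟩
  zero_mem' := ⟨0, zero_mem (fix C.g), (map_zero _)⟩
  neg_mem' := by
    rintro _ ⟨x, hx, rfl⟩
    exact ⟨-x, neg_mem hx, by rw [map_neg]⟩
  inv_mem' := by
    rintro _ ⟨x, hx, rfl⟩
    exact ⟨x⁻¹, inv_mem hx, by rw [map_inv₀]⟩

section

variable {C : Core K} {A : Alg C D} (hB : Base A)

@[simp] lemma mem_DL (l : ℕ) (d : D) : d ∈ DL hB l ↔ d ∈ A.Dl l := Iff.rfl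

@[simp] lemma mem_ZL (l : ℕ) (d : D) : d ∈ ZL A l ↔ ∃ x, C.g l x = x ∧ d = A.ι x := Iff.rfl

@[simp] lemma mem_FL (d : D) : d ∈ FL A ↔ d ∈ A.Fs := Iff.rfl

include hB in
lemma ZL_le (l : ℕ) : ∀ d ∈ ZL A l, d ∈ A.Dl l := by
  rintro _ ⟨x, hx, rfl⟩
  exact hB.ι_mem l x

include hB in
lemma ZL_comm (l : ℕ) {z d : D} (hz : z ∈ ZL A l) (hd : d ∈ A.Dl l) : z * d = d * z := by
  obtain ⟨x, hx, rfl⟩ := hz
  exact hB.cen l x hx d hd

include hB in
lemma Dl_mono {k l : ℕ} (h : k ≤ l) : A.Dl k ⊆ A.Dl l := by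
  induction l, h using Nat.le_induction with
  | base => exact le_rfl
  | succ n hn ih => exact ih.trans (hB.mono n)

end

lemma El_mono {T : Data K} {A : Alg T.toCore D} (hE : BaseE A) {k l : ℕ} (h : k ≤ l) :
    A.El k ⊆ A.El l := by
  induction l, h using Nat.le_induction with
  | base => exact le_rfl
  | succ n hn ih => exact ih.trans (hE.mono n)

/-- an element of `D_l` is `Z_l`-combination of finitely many -/
lemma DL_finite {T : Data K} {A : Alg T.toCore D} (hB : Base A) (hE : BaseE A) (l : ℕ) :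
    ∃ (N : ℕ) (e : Fin N → D), (∀ j, e j ∈ A.El l) ∧
      ∀ d ∈ A.Dl l, d ∈ Submodule.span (ZL A l) (Set.range e) := by
  obtain ⟨N, e, he, h1, -⟩ := hE.basis l
  refine ⟨N, e, he, fun d hd => ?_⟩
  obtain ⟨x, hx, rfl⟩ := h1 d hd
  refine Submodule.sum_mem _ fun j _ => ?_
  have : A.ι (x j) * e j = (⟨A.ι (x j), ⟨x j, hx j, rfl⟩⟩ : ZL A l) • e j := rfl
  rw [this]
  exact Submodule.smul_mem _ _ (Submodule.subset_span ⟨j, rfl⟩)

end Pool.Agent.Run7.h847.MP57
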